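import Pool.Agent.helper69.SN.SpecB
import Pool.Agent.helper53.SC.HS1

/-!
Row sn:xAPC of project sn (MP_d2d7b9): Moreau envelopes of class functions are in the class up to
`δ`, in the sense of approximants.
-/

open scoped Pointwise ContDiff
open MeasureTheory Set Filter Topology

set_option linter.unusedVariables false

namespace Pool.Agent.helper19.SN

open Pool.Agent.helper83.SC Pool.Agent.helper69.SN

/-- A matrix with small entries is small as a quadratic form. -/
theorem entry_psd {m : ℕ} {A : Mat m} {c : ℝ} (hA : A.IsHermitian) (h : ∀ i j, |A i j| ≤ c) :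
    (((m : ℝ) * c) • (1 : Mat m) - A).PosSemidef := by
  refine Matrix.PosSemidef.of_dotProduct_mulVec_nonneg ?_ ?_
  · refine Matrix.IsHermitian.sub ?_ hA
    rw [Matrix.IsHermitian, Matrix.conjTranspose_smul, Matrix.conjTranspose_one, star_trivial]
  · intro v
    have h1 : ∀ i j, v i * A i j * v j ≤ c * (v i ^ 2 + v j ^ 2) / 2 := by
      intro i j
      have h2 : v i * A i j * v j ≤ |v i * A i j * v j| := le_abs_self _
      have h3 : |v i * A i j * v j| = |A i j| * (|v i| * |v j|) := by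
        rw [abs_mul, abs_mul]; ring
      have h4 : |A i j| * (|v i| * |v j|) ≤ c * (|v i| * |v j|) :=
        mul_le_mul_of_nonneg_right (h i j) (by positivity)
      have hc : 0 ≤ c := le_trans (abs_nonneg _) (h i j)
      have h5 : |v i| * |v j| ≤ (v i ^ 2 + v j ^ 2) / 2 := by
        nlinarith [sq_nonneg (|v i| - |v j|), sq_abs (v i), sq_abs (v j)]
      have h6 : c * (|v i| * |v j|) ≤ c * ((v i ^ 2 + v j ^ 2) / 2) :=
        mul_le_mul_of_nonneg_left h5 hc
      calc v i * A i j * v j ≤ |v i * A i j * v j| := h2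
        _ = |A i j| * (|v i| * |v j|) := h3
        _ ≤ c * (|v i| * |v j|) := h4
        _ ≤ c * ((v i ^ 2 + v j ^ 2) / 2) := h6
        _ = c * (v i ^ 2 + v j ^ 2) / 2 := by ring
    have h2 : ∑ i, ∑ j, v i * A i j * v j ≤ ∑ i : Fin m, ∑ j : Fin m, c * (v i ^ 2 + v j ^ 2) / 2 :=
      Finset.sum_le_sum fun i _ => Finset.sum_le_sum fun j _ => h1 i j
    have h3 : ∑ i : Fin m, ∑ j : Fin m, c * (v i ^ 2 + v j ^ 2) / 2
        = (m : ℝ) * c * ∑ i : Fin m, v i ^ 2 := by
      have h4 : ∀ i : Fin m, ∑ j : Fin m, c * (v i ^ 2 + v j ^ 2) / 2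
          = (m : ℝ) * (c / 2 * v i ^ 2) + c / 2 * ∑ j : Fin m, v j ^ 2 := by
        intro i
        rw [Finset.mul_sum]
        have h5 : ∀ j : Fin m, c * (v i ^ 2 + v j ^ 2) / 2 = c / 2 * v i ^ 2 + c / 2 * v j ^ 2 := by
          intro j; ring
        rw [Finset.sum_congr rfl fun j _ => h5 j, Finset.sum_add_distrib, Finset.sum_const,
          Finset.card_univ, Fintype.card_fin, nsmul_eq_mul]
      rw [Finset.sum_congr rfl fun i _ => h4 i, Finset.sum_add_distrib, Finset.sum_const,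
        Finset.card_univ, Fintype.card_fin, nsmul_eq_mul, ← Finset.mul_sum, ← Finset.mul_sum]
      ring
    have h5 : star v ⬝ᵥ (((m : ℝ) * c) • (1 : Mat m) - A).mulVec v
        = (m : ℝ) * c * ∑ i : Fin m, v i ^ 2 - ∑ i, ∑ j, v i * A i j * v j := by
      rw [star_trivial, Matrix.sub_mulVec, Matrix.smul_mulVec, Matrix.one_mulVec,
        dotProduct_sub, dotProduct_smul, smul_eq_mul]
      congr 1
      · congr 1
        exact Finset.sum_congr rfl fun i _ => by ring
      · simp only [dotProduct, Matrix.mulVec, Finset.mul_sum]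
        exact Finset.sum_congr rfl fun i _ => Finset.sum_congr rfl fun j _ => by ring
    rw [h5]
    linarith

/-- Lipschitz constants of convex functions on balls. -/
theorem conv_lip {m : ℕ} {f : E m → ℝ} (hf : CV f) {R C : ℝ} (hC : ∀ x : E m, ‖x‖ ≤ R + 2 → |f x| ≤ C)
    (hC0 : 0 ≤ C) :
    ∀ x y : E m, ‖x‖ ≤ R + 1 → ‖y‖ ≤ R + 1 → |f x - f y| ≤ 4 * C * ‖x - y‖ := by
  intro x y hx hy
  have h1 : ConvexOn ℝ (Metric.ball (0 : E m) (R + 2)) f :=
    hf.subset (subset_univ _) (convex_ball _ _)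
  have h2 := h1.lipschitzOnWith_of_abs_le (ε := 1 / 2) (M := C) (by norm_num)
    (fun a ha => hC a (by rw [dist_zero_right] at ha; exact ha.le))
  have h3 := h2.dist_le_mul x (by rw [Metric.mem_ball, dist_zero_right]; linarith)
    y (by rw [Metric.mem_ball, dist_zero_right]; linarith)
  rw [Real.dist_eq, dist_eq_norm, Real.coe_toNNReal _ (by positivity)] at h3
  calc |f x - f y| ≤ 2 * C / (1 / 2) * ‖x - y‖ := h3
    _ = 4 * C * ‖x - y‖ := by ring

theorem xAPC (hCLS : bCLS_stmt) (hPRX : xPRX_stmt) (hLOC : xLOC_stmt) (hCMP : xCMP_stmt)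
    (hHES : xHES_stmt) (hTRU : aTRU_stmt) (hPER : aPER_stmt) : xAPC_stmt := by
  intro m n B hB hBc κ hκ R δ hδ
  obtain ⟨hκcv, hκc⟩ := (hCLS B hB).2.1 κ hκ
  obtain ⟨R', hR'0, hRR'⟩ : ∃ R' : ℝ, 0 ≤ R' ∧ R ≤ R' := ⟨max R 0, le_max_right _ _, le_max_left _ _⟩
  -- bound for `κ`
  obtain ⟨C₀, hC₀⟩ := (isCompact_closedBall (0 : E m) (R' + 2)).exists_bound_of_continuousOn
    hκc.continuousOn
  obtain ⟨C, hC1, hC⟩ : ∃ C : ℝ, 1 ≤ C ∧ ∀ x : E m, ‖x‖ ≤ R' + 2 → |κ x| + 1 ≤ C := by
    refine ⟨|C₀| + 1, by linarith [abs_nonneg C₀], fun x hx => ?_⟩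
    have h1 := hC₀ x (by rw [Metric.mem_closedBall, dist_zero_right]; exact hx)
    rw [Real.norm_eq_abs] at h1
    linarith [le_abs_self C₀]
  have hC0 : 0 ≤ C := by linarith
  obtain ⟨L, hLdef⟩ : ∃ L : ℝ, L = 4 * C := ⟨_, rfl⟩
  have hL0 : 0 < L := by rw [hLdef]; linarith
  have hκlip : ∀ x y : E m, ‖x‖ ≤ R' + 1 → ‖y‖ ≤ R' + 1 → |κ x - κ y| ≤ L * ‖x - y‖ := by
    rw [hLdef]
    exact conv_lip hκcv (fun x hx => by linarith [hC x hx]) hC0
  -- the function of all the entries
  have hF : Continuous fun x : E m => (fun i j k => B x i j k : Fin n → Fin m → Fin m → ℝ) := by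
    refine continuous_pi fun i => continuous_pi fun j => continuous_pi fun k => ?_
    exact (continuous_id.matrix_elem j k).comp (hBc i)
  obtain ⟨β, hβ⟩ := (isCompact_closedBall (0 : E m) (R' + 1)).exists_bound_of_continuousOn
    hF.continuousOn
  have hβ0 : 0 ≤ β := le_trans (norm_nonneg _)
    (hβ 0 (by rw [Metric.mem_closedBall, dist_self]; linarith))
  have hent : ∀ x : E m, ‖x‖ ≤ R' + 1 → ∀ i j k, |B x i j k| ≤ β := by
    intro x hx i j k
    have h1 := hβ x (by rw [Metric.mem_closedBall, dist_zero_right]; exact hx)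
    have h2 := norm_le_pi_norm (fun i j k => B x i j k : Fin n → Fin m → Fin m → ℝ) i
    have h3 := norm_le_pi_norm (fun j k => B x i j k : Fin m → Fin m → ℝ) j
    have h4 := norm_le_pi_norm (fun k => B x i j k : Fin m → ℝ) k
    rw [← Real.norm_eq_abs]
    exact le_trans h4 (le_trans h3 (le_trans h2 h1))
  obtain ⟨b, hb0, hLe⟩ : ∃ b : ℝ, 0 ≤ b ∧ ∀ x : E m, ‖x‖ ≤ R' + 1 → Le (B x) b := by
    refine ⟨(m : ℝ) * β, by positivity, fun x hx i => ?_⟩
    exact entry_psd (hB x i).isHermitian (fun j k => hent x hx i j k)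
  obtain ⟨η, hη, hper⟩ := hPER (m := m) (n := n) b δ hb0 hδ
  obtain ⟨ε₀, hε₀, htru⟩ := hTRU (m := m) (n := n) b η hb0 hη
  -- uniform continuity
  have hη' : 0 < η / (m + 1) := by positivity
  have hUC := (isCompact_closedBall (0 : E m) (R' + 1)).uniformContinuousOn_of_continuous
    hF.continuousOn
  rw [Metric.uniformContinuousOn_iff] at hUC
  obtain ⟨ρ, hρ, hρB⟩ := hUC (η / (m + 1)) hη'
  have hclose : ∀ x y : E m, ‖x‖ ≤ R' + 1 → ‖y‖ ≤ R' + 1 → ‖x - y‖ < ρ → ∀ i,
      (η • (1 : Mat m) - (B x i - B y i)).PosSemidef := by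
    intro x y hx hy hxy i
    have h1 := hρB x (by rw [Metric.mem_closedBall, dist_zero_right]; exact hx)
      y (by rw [Metric.mem_closedBall, dist_zero_right]; exact hy)
      (by rw [dist_eq_norm]; exact hxy)
    have h2 : ∀ j k, |(B x i - B y i) j k| ≤ η / (m + 1) := by
      intro j k
      have e1 := dist_le_pi_dist (fun i j k => B x i j k : Fin n → Fin m → Fin m → ℝ)
        (fun i j k => B y i j k) i
      have e2 := dist_le_pi_dist (fun j k => B x i j k : Fin m → Fin m → ℝ)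
        (fun j k => B y i j k) j
      have e3 := dist_le_pi_dist (fun k => B x i j k : Fin m → ℝ) (fun k => B y i j k) k
      have e4 : |(B x i - B y i) j k| = dist (B x i j k) (B y i j k) := by
        rw [Real.dist_eq, Matrix.sub_apply]
      rw [e4]
      exact le_trans e3 (le_trans e2 (le_trans e1 h1.le))
    have h3 := entry_psd ((hB x i).isHermitian.sub (hB y i).isHermitian) h2
    have h4 : η • (1 : Mat m) - (B x i - B y i)
        = ((m : ℝ) * (η / (m + 1))) • (1 : Mat m) - (B x i - B y i)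
          + (η - (m : ℝ) * (η / (m + 1))) • (1 : Mat m) := by
      rw [sub_smul]; abel
    rw [h4]
    refine h3.add ?_
    refine Matrix.PosSemidef.smul Matrix.PosSemidef.one ?_
    have h5 : (m : ℝ) * (η / (m + 1)) ≤ η := by
      rw [← mul_div_assoc, div_le_iff₀ (by positivity)]
      nlinarith
    linarith
  refine ⟨min ε₀ (min (1 / (2 * L)) (ρ / (4 * L))), by positivity, ?_⟩
  intro e he heE ε hε
  have he1 : e ≤ ε₀ := le_trans heE (min_le_left _ _)
  have he2 : 2 * e * L ≤ 1 := by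
    have h1 : e ≤ 1 / (2 * L) := le_trans heE (le_trans (min_le_right _ _) (min_le_left _ _))
    rw [le_div_iff₀ (by positivity)] at h1
    linarith
  have he3 : 2 * e * L < ρ := by
    have h1 : e ≤ ρ / (4 * L) := le_trans heE (le_trans (min_le_right _ _) (min_le_right _ _))
    rw [le_div_iff₀ (by positivity)] at h1
    linarith
  obtain ⟨κ', hκ's, hκ'κ, hκ'G⟩ := hκ (R' + 2) (min ε 1) (by positivity)
  have hκ'b : ∀ x : E m, ‖x‖ ≤ R' + 2 → |κ' x| ≤ C := by
    intro x hx
    have h1 := hκ'κ x hx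
    have h2 : |κ' x| ≤ |κ' x - κ x| + |κ x| := by
      have h3 := abs_add_le (κ' x - κ x) (κ x)
      rw [sub_add_cancel] at h3
      exact h3
    linarith [hC x hx, min_le_right ε 1]
  have hκ'lip : ∀ x y : E m, ‖x‖ ≤ R' + 1 → ‖y‖ ≤ R' + 1 → |κ' x - κ' y| ≤ L * ‖x - y‖ := by
    rw [hLdef]
    exact conv_lip hκ's.2 hκ'b hC0
  obtain ⟨P, hP, hPm, -, -, -, hPcv, -, -⟩ := hPRX κ' e hκ's.2 he
  obtain ⟨hsm, hhess⟩ := hHES κ' e P hκ's he hP
  refine ⟨mor κ' e, ⟨hsm, hPcv⟩, ?_, ?_⟩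
  · intro x hx
    exact hCMP κ κ' e R' L ε hκcv hκ's.2 he hL0.le he2 hκlip hκ'lip
      (fun y hy => le_trans (hκ'κ y (by linarith)) (min_le_left _ _)) x (hx.trans hRR')
  · intro x hx
    have hxR : ‖x‖ ≤ R' := hx.trans hRR'
    have hd := (hLOC κ' e R' L P hκ's.2 he hL0.le hP hPm hκ'lip x hxR).1
    have hPx : ‖P x‖ ≤ R' + 1 := by
      have h1 : ‖P x‖ ≤ ‖x‖ + ‖x - P x‖ := by
        have h2 := norm_sub_le x (x - P x)
        rw [sub_sub_cancel] at h2
        exact h2
      linarith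
    have hx1 : ‖x‖ ≤ R' + 1 := by linarith
    have hNpsd : (hess κ' (P x)).PosSemidef := hess_psd_of hκ's.1 hκ's.2 (P x)
    have hN'psd : (hess (mor κ' e) x).PosSemidef := hess_psd_of hsm hPcv x
    have hG := hκ'G (P x) (by linarith)
    have h1 := htru e he he1 (B (P x)) (hess κ' (P x)) (hB (P x)) (hLe (P x) hPx) hNpsd hG
    rw [← hhess x] at h1
    have hlt : ‖x - P x‖ < ρ := lt_of_le_of_lt hd he3
    have hlt' : ‖P x - x‖ < ρ := by rw [norm_sub_rev]; exact hlt
    refine hper (B (P x)) (B x) (hess (mor κ' e) x) (hB (P x)) (hB x) (hLe (P x) hPx) (hLe x hx1)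
      hN'psd ?_ ?_ h1
    · intro i
      have h2 : η • (1 + hess (mor κ' e) x) - (B (P x) i - B x i)
          = (η • (1 : Mat m) - (B (P x) i - B x i)) + η • hess (mor κ' e) x := by
        rw [smul_add]; abel
      rw [h2]
      exact (hclose (P x) x hPx hx1 hlt' i).add (hN'psd.smul hη.le)
    · intro i
      have h2 : η • (1 + hess (mor κ' e) x) - (B x i - B (P x) i)
          = (η • (1 : Mat m) - (B x i - B (P x) i)) + η • hess (mor κ' e) x := by
        rw [smul_add]; abel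
      rw [h2]
      exact (hclose x (P x) hx1 hPx hlt i).add (hN'psd.smul hη.le)

end Pool.Agent.helper19.SN
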